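import Mathlib
import Pool.Agent.Helper531.ES.RDefs
import Pool.Agent.Helper531.ES.Final

set_option autoImplicit false

namespace Pool.Agent.Results.MP_dd155b_co.TreeRamsey

open Helper531.ES

/-- For every fixed `k ≥ 2` and every `ε > 0` there is `m₀` such that for every tree `T` on
`m ≥ m₀` vertices the `k`-colour Ramsey number of `T` exists and is at most `(1 + ε) k m`. -/
theorem result :
    ∀ k : ℕ, 2 ≤ k → ∀ ε : ℝ, 0 < ε → ∃ m₀ : ℕ, ∀ m : ℕ, m₀ ≤ m →
      ∀ T : SimpleGraph (Fin m), T.IsTree →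
        ∃ r : ℕ, IsRamseyNumber T k r ∧ (r : ℝ) ≤ (1 + ε) * (k * m) :=
  asymp esProp

end Pool.Agent.Results.MP_dd155b_co.TreeRamsey
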